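import Pool.Agent.W185.SRG.Main

/-!
# The Weisfeiler-Leman dimension of strongly regular graphs is unbounded

For every `k` there are two non-isomorphic strongly regular graphs with the same parameters
(Latin square graphs of two loops of the same order `m`) which the `k`-dimensional
Weisfeiler-Leman method does not distinguish.

The loops live on `A × C × Γ` with `A`, `C`, `Γ` elementary abelian `2`-groups,
`C = Γ ^ (N × N)`, `N > 2 k + 2`, with product
`(x, c, g) (y, d, g') = (x + y, c + d, g + g' + φ(x, y)(c) + h(x, y) + [x = e, y = 0] τ)`.
The bilinear-looking term `φ` carries a system of equations of Cai-Fürer-Immerman type whose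
inconsistency is the difference between `τ = 0` and `τ ≠ 0`; the function `h : A × A → Γ` is
chosen by counting, so that no isotopism but the gauge transformations survives.
-/

set_option autoImplicit false

namespace Pool.Agent.Results.MP_d81a4d_co.Unbounded

open Pool.Agent.W185.SRG

open Classical in
theorem result : ∀ k : ℕ,
    ∃ (m : ℕ) (V : Type) (_ : Fintype V) (G H : SimpleGraph V), 5 ≤ m ∧
      G.IsSRGWith (m ^ 2) (3 * (m - 1)) m 6 ∧ H.IsSRGWith (m ^ 2) (3 * (m - 1)) m 6 ∧
      IsEmpty (G ≃g H) ∧ WLEquivalent k G H :=
  main

end Pool.Agent.Results.MP_d81a4d_co.Unbounded
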